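import Mathlib

set_option autoImplicit false

namespace Pool.Agent.helper616_rb

open Finset Filter Topology

/-- trigonometric polynomial with real coefficients -/
noncomputable def tp (c : ℕ → ℝ) (M : ℕ) (θ : ℝ) : ℂ :=
  ∑ n ∈ range M, (c n : ℂ) * Complex.exp (θ * Complex.I) ^ n

theorem tp_cont (c : ℕ → ℝ) (M : ℕ) : Continuous (tp c M) := by
  unfold tp
  fun_prop

theorem int_exp (k : ℤ) (hk : k ≠ 0) :
    ∫ θ in (-Real.pi)..Real.pi, Complex.exp (k * Complex.I * (θ : ℂ)) = 0 := by
  rw [integral_exp_mul_complex]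
  · have h1 : Complex.exp (k * Complex.I * (Real.pi : ℂ)) =
        Complex.exp (k * Complex.I * ((-Real.pi : ℝ) : ℂ)) := by
      have : (k : ℂ) * Complex.I * (Real.pi : ℂ) =
          k * Complex.I * ((-Real.pi : ℝ) : ℂ) + k * (2 * Real.pi * Complex.I) := by
        push_cast; ring
      rw [this, Complex.exp_add, Complex.exp_int_mul_two_pi_mul_I, mul_one]
    rw [h1, sub_self, zero_div]
  · refine mul_ne_zero ?_ Complex.I_ne_zero
    exact_mod_cast hk

theorem pow_conj (θ : ℝ) (m n : ℕ) :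
    Complex.exp (θ * Complex.I) ^ m * (starRingEnd ℂ) (Complex.exp (θ * Complex.I) ^ n) =
      Complex.exp (((m : ℤ) - (n : ℤ) : ℤ) * Complex.I * (θ : ℂ)) := by
  rw [map_pow, ← Complex.exp_conj, ← Complex.exp_nat_mul, ← Complex.exp_nat_mul,
    ← Complex.exp_add]
  congr 1
  simp only [map_mul, Complex.conj_ofReal, Complex.conj_I]
  push_cast
  ring

theorem parseval (c : ℕ → ℝ) (M : ℕ) :
    ∫ θ in (-Real.pi)..Real.pi, ‖tp c M θ‖ ^ 2 = 2 * Real.pi * ∑ n ∈ range M, c n ^ 2 := by
  have h1 : ∀ θ : ℝ, ((‖tp c M θ‖ ^ 2 : ℝ) : ℂ) = ∑ m ∈ range M, ∑ n ∈ range M,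
      ((c m * c n : ℝ) : ℂ) * Complex.exp (((m : ℤ) - (n : ℤ) : ℤ) * Complex.I * (θ : ℂ)) := by
    intro θ
    have : ((‖tp c M θ‖ ^ 2 : ℝ) : ℂ) = tp c M θ * (starRingEnd ℂ) (tp c M θ) := by
      rw [Complex.mul_conj, Complex.normSq_eq_norm_sq]
    rw [this]
    unfold tp
    rw [map_sum, Finset.sum_mul_sum]
    refine Finset.sum_congr rfl fun m _ => Finset.sum_congr rfl fun n _ => ?_
    rw [← pow_conj, map_mul, Complex.conj_ofReal]
    push_cast
    ring
  have h2 : ((∫ θ in (-Real.pi)..Real.pi, ‖tp c M θ‖ ^ 2 : ℝ) : ℂ) =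
      ((2 * Real.pi * ∑ n ∈ range M, c n ^ 2 : ℝ) : ℂ) := by
    rw [← intervalIntegral.integral_ofReal]
    simp_rw [h1]
    rw [intervalIntegral.integral_finsetSum]
    · have : ∀ m ∈ range M, (∫ θ in (-Real.pi)..Real.pi, ∑ n ∈ range M,
          ((c m * c n : ℝ) : ℂ) *
            Complex.exp (((m : ℤ) - (n : ℤ) : ℤ) * Complex.I * (θ : ℂ))) =
            ((2 * Real.pi * c m ^ 2 : ℝ) : ℂ) := by
        intro m hm
        rw [intervalIntegral.integral_finsetSum]
        · rw [Finset.sum_eq_single m]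
          · simp only [sub_self, Int.cast_zero, zero_mul, Complex.exp_zero, mul_one]
            rw [intervalIntegral.integral_const]
            rw [Complex.real_smul]
            push_cast
            ring
          · intro n _ hn
            rw [intervalIntegral.integral_const_mul, int_exp, mul_zero]
            intro h
            apply hn
            have : (m : ℤ) = n := by linarith
            exact_mod_cast this.symm
          · intro h; exact absurd hm h
        · intro n _
          apply Continuous.intervalIntegrable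
          fun_prop
      rw [Finset.sum_congr rfl this]
      push_cast
      rw [Finset.mul_sum]
    · intro m _
      apply Continuous.intervalIntegrable
      fun_prop
  exact_mod_cast h2

theorem l1_le (c : ℕ → ℝ) (M : ℕ) (l : ℝ) (hl : 0 < l) :
    ∫ θ in (-Real.pi)..Real.pi, ‖tp c M θ‖ ≤
      Real.pi * ((∑ n ∈ range M, c n ^ 2) / l + l) := by
  have h1 : ∫ θ in (-Real.pi)..Real.pi, ‖tp c M θ‖ ≤
      ∫ θ in (-Real.pi)..Real.pi, (‖tp c M θ‖ ^ 2 * (1 / (2 * l)) + l / 2) := by
    apply intervalIntegral.integral_mono_on (by linarith [Real.pi_pos])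
    · exact ((tp_cont c M).norm).intervalIntegrable _ _
    · apply Continuous.intervalIntegrable
      have := tp_cont c M
      fun_prop
    · intro θ _
      have : 0 ≤ (‖tp c M θ‖ - l) ^ 2 := sq_nonneg _
      have h3 : ‖tp c M θ‖ ^ 2 * (1 / (2 * l)) + l / 2 - ‖tp c M θ‖ =
          (‖tp c M θ‖ - l) ^ 2 / (2 * l) := by
        field_simp
        ring
      have h4 : 0 ≤ (‖tp c M θ‖ - l) ^ 2 / (2 * l) := by positivity
      linarith
  refine h1.trans (le_of_eq ?_)
  rw [intervalIntegral.integral_add, intervalIntegral.integral_mul_const, parseval,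
    intervalIntegral.integral_const]
  · simp only [smul_eq_mul]
    field_simp
    ring
  · apply Continuous.intervalIntegrable
    have := tp_cont c M
    fun_prop
  · exact intervalIntegrable_const

/-- the square of a trigonometric polynomial -/
theorem tp_sq (u : ℕ → ℝ) (N : ℕ) (hu : ∀ n, N ≤ n → u n = 0) (θ : ℝ) :
    tp u N θ ^ 2 = tp (fun n => ∑ p ∈ antidiagonal n, u p.1 * u p.2) (2 * N) θ := by
  classical
  unfold tp
  set z := Complex.exp (θ * Complex.I)
  rw [pow_two, Finset.sum_mul_sum]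
  rw [← Finset.sum_product']
  have h1 : ∑ x ∈ range N ×ˢ range N, (u x.1 : ℂ) * z ^ x.1 * ((u x.2 : ℂ) * z ^ x.2) =
      ∑ n ∈ range (2 * N), ∑ x ∈ (range N ×ˢ range N).filter (fun x => x.1 + x.2 = n),
        (u x.1 : ℂ) * z ^ x.1 * ((u x.2 : ℂ) * z ^ x.2) := by
    rw [Finset.sum_fiberwise_of_maps_to]
    intro x hx
    simp only [mem_product, mem_range] at hx ⊢
    omega
  rw [h1]
  refine Finset.sum_congr rfl fun n _ => ?_
  push_cast
  rw [Finset.sum_mul]
  have h2 : (range N ×ˢ range N).filter (fun x => x.1 + x.2 = n) =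
      (antidiagonal n).filter (fun x => x.1 < N ∧ x.2 < N) := by
    ext x
    simp only [mem_filter, mem_product, mem_range, HasAntidiagonal.mem_antidiagonal]
    tauto
  rw [h2]
  rw [Finset.sum_filter]
  refine Finset.sum_congr rfl fun x hx => ?_
  rw [HasAntidiagonal.mem_antidiagonal] at hx
  split_ifs with h
  · rw [← hx, pow_add]; ring
  · rw [not_and_or, not_lt, not_lt] at h
    rcases h with h | h
    · rw [hu _ h]; simp
    · rw [hu _ h]; simp

/-- the key inequality -/
theorem key (u g : ℕ → ℝ) (N : ℕ) (hu : ∀ n, N ≤ n → u n = 0) :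
    2 * Real.pi * ∑ n ∈ range N, u n ^ 2 ≤
      (∫ θ in (-Real.pi)..Real.pi, ‖tp g (2 * N) θ‖) +
      ∫ θ in (-Real.pi)..Real.pi,
        ‖tp (fun n => (∑ p ∈ antidiagonal n, u p.1 * u p.2) - g n) (2 * N) θ‖ := by
  rw [← parseval, ← intervalIntegral.integral_add]
  · apply intervalIntegral.integral_mono_on (by linarith [Real.pi_pos])
    · apply Continuous.intervalIntegrable
      have := tp_cont u N
      fun_prop
    · exact ((tp_cont _ _).norm.add (tp_cont _ _).norm).intervalIntegrable _ _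
    · intro θ _
      rw [← norm_pow, tp_sq u N hu θ]
      have : tp (fun n => ∑ p ∈ antidiagonal n, u p.1 * u p.2) (2 * N) θ =
          tp g (2 * N) θ +
            tp (fun n => (∑ p ∈ antidiagonal n, u p.1 * u p.2) - g n) (2 * N) θ := by
        unfold tp
        rw [← Finset.sum_add_distrib]
        refine Finset.sum_congr rfl fun n _ => ?_
        push_cast
        ring
      rw [this]
      exact norm_add_le _ _
  · exact ((tp_cont _ _).norm).intervalIntegrable _ _
  · exact ((tp_cont _ _).norm).intervalIntegrable _ _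

/-- the geometric polynomial away from `0` -/
theorem geom_away (ρ : ℝ) (hρ : 1 / 2 ≤ ρ) (hρ1 : ρ < 1) (M : ℕ) (δ θ : ℝ) (hδ : 0 < δ)
    (hδ1 : δ ≤ Real.pi) (hθ : δ ≤ |θ|) (hθ1 : |θ| ≤ Real.pi) :
    ‖tp (fun n => ρ ^ n) M θ‖ ≤ 2 / Real.sqrt (1 - Real.cos δ) := by
  have hcos : Real.cos θ ≤ Real.cos δ := by
    rw [← Real.cos_abs θ]
    exact Real.cos_le_cos_of_nonneg_of_le_pi hδ.le hθ1 hθ
  have hcδ : Real.cos δ < 1 := by
    have := Real.cos_lt_cos_of_nonneg_of_le_pi le_rfl hδ1 hδ
    simpa using this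
  have hsq : 0 < Real.sqrt (1 - Real.cos δ) := Real.sqrt_pos.2 (by linarith)
  set w : ℂ := (ρ : ℂ) * Complex.exp (θ * Complex.I) with hw
  have hwn : ‖w‖ = ρ := by
    rw [hw, norm_mul, Complex.norm_exp_ofReal_mul_I, mul_one, Complex.norm_real,
      Real.norm_of_nonneg (by linarith)]
  have h1 : tp (fun n => ρ ^ n) M θ = ∑ n ∈ range M, w ^ n := by
    unfold tp
    refine Finset.sum_congr rfl fun n _ => ?_
    rw [hw, mul_pow]
    push_cast
    ring
  have h2 : (∑ n ∈ range M, w ^ n) * (1 - w) = 1 - w ^ M := by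
    exact geom_sum_mul_neg w M
  have h3 : ‖1 - w ^ M‖ ≤ 2 := by
    calc ‖1 - w ^ M‖ ≤ ‖(1 : ℂ)‖ + ‖w ^ M‖ := norm_sub_le _ _
      _ ≤ 1 + 1 := by
        rw [norm_one, norm_pow, hwn]
        have : ρ ^ M ≤ 1 := pow_le_one₀ (by linarith) hρ1.le
        linarith
      _ = 2 := by norm_num
  have h4 : Real.sqrt (1 - Real.cos δ) ≤ ‖1 - w‖ := by
    rw [Real.sqrt_le_left (norm_nonneg _)]
    have h5 : ‖1 - w‖ ^ 2 = 1 - 2 * ρ * Real.cos θ + ρ ^ 2 := by
      rw [← Complex.normSq_eq_norm_sq, Complex.normSq_apply, hw, Complex.exp_mul_I]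
      simp only [Complex.sub_re, Complex.one_re, Complex.mul_re, Complex.ofReal_re,
        Complex.add_re, Complex.ofReal_im, Complex.sub_im, Complex.one_im, Complex.mul_im,
        Complex.add_im, Complex.I_re, Complex.I_im, ← Complex.ofReal_cos, ← Complex.ofReal_sin]
      have := Real.sin_sq_add_cos_sq θ
      nlinarith
    rw [h5]
    nlinarith [Real.cos_le_one θ, Real.neg_one_le_cos θ]
  rw [h1]
  rw [le_div_iff₀ hsq]
  calc ‖∑ n ∈ range M, w ^ n‖ * Real.sqrt (1 - Real.cos δ)
      ≤ ‖∑ n ∈ range M, w ^ n‖ * ‖1 - w‖ := by gcongr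
    _ = ‖1 - w ^ M‖ := by rw [← norm_mul, h2]
    _ ≤ 2 := h3

end Pool.Agent.helper616_rb
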