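import Mathlib
import Pool.Agent.helper616_rb.Trig

set_option autoImplicit false

namespace Pool.Agent.helper616_rb

open Finset Filter Topology

theorem geom_l1 (ρ : ℝ) (hρ : 1 / 2 ≤ ρ) (hρ1 : ρ < 1) (M : ℕ) (δ κ T : ℝ) (hδ : 0 < δ)
    (hδ1 : δ ≤ Real.pi) (hκ : 0 < κ) (hT : 0 < T)
    (hs : ∑ n ∈ range M, (ρ ^ n) ^ 2 ≤ T ^ 2) :
    ∫ θ in (-Real.pi)..Real.pi, ‖tp (fun n => ρ ^ n) M θ‖ ≤
      2 * Real.pi * (2 / Real.sqrt (1 - Real.cos δ)) + Real.pi * κ * T + T * δ / κ := by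
  set C := 2 / Real.sqrt (1 - Real.cos δ) with hC
  have hC0 : 0 ≤ C := by positivity
  set f : ℝ → ℝ := fun θ => ‖tp (fun n => ρ ^ n) M θ‖ with hf
  have hfc : Continuous f := (tp_cont _ _).norm
  have hpi := Real.pi_pos
  have hii : ∀ a b : ℝ, IntervalIntegrable f MeasureTheory.volume a b :=
    fun a b => hfc.intervalIntegrable a b
  have hsplit : ∫ θ in (-Real.pi)..Real.pi, f θ =
      (∫ θ in (-Real.pi)..(-δ), f θ) + (∫ θ in (-δ)..δ, f θ) + ∫ θ in δ..Real.pi, f θ := by
    rw [intervalIntegral.integral_add_adjacent_intervals (hii _ _) (hii _ _),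
      intervalIntegral.integral_add_adjacent_intervals (hii _ _) (hii _ _)]
  have h1 : ∫ θ in (-Real.pi)..(-δ), f θ ≤ Real.pi * C := by
    have : ∫ θ in (-Real.pi)..(-δ), f θ ≤ ∫ θ in (-Real.pi)..(-δ), C := by
      apply intervalIntegral.integral_mono_on (by linarith) (hii _ _) intervalIntegrable_const
      intro θ hθ
      have h0 : |θ| = -θ := abs_of_nonpos (by linarith [hθ.2])
      exact geom_away ρ hρ hρ1 M δ θ hδ hδ1 (by rw [h0]; linarith [hθ.2])
        (by rw [h0]; linarith [hθ.1])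
    rw [intervalIntegral.integral_const] at this
    simp only [smul_eq_mul] at this
    nlinarith
  have h3 : ∫ θ in δ..Real.pi, f θ ≤ Real.pi * C := by
    have : ∫ θ in δ..Real.pi, f θ ≤ ∫ θ in δ..Real.pi, C := by
      apply intervalIntegral.integral_mono_on (by linarith) (hii _ _) intervalIntegrable_const
      intro θ hθ
      have h0 : |θ| = θ := abs_of_nonneg (by linarith [hθ.1])
      exact geom_away ρ hρ hρ1 M δ θ hδ hδ1 (by rw [h0]; linarith [hθ.1])
        (by rw [h0]; linarith [hθ.2])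
    rw [intervalIntegral.integral_const] at this
    simp only [smul_eq_mul] at this
    nlinarith
  have h2 : ∫ θ in (-δ)..δ, f θ ≤ Real.pi * κ * T + T * δ / κ := by
    have h4 : ∫ θ in (-δ)..δ, f θ ≤
        ∫ θ in (-δ)..δ, (f θ ^ 2 * (κ / (2 * T)) + T / (2 * κ)) := by
      apply intervalIntegral.integral_mono_on (by linarith) (hii _ _)
      · apply Continuous.intervalIntegrable
        fun_prop
      · intro θ _
        have h5 : f θ ^ 2 * (κ / (2 * T)) + T / (2 * κ) - f θ =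
            (κ * f θ - T) ^ 2 / (2 * T * κ) := by
          field_simp
          ring
        have h6 : 0 ≤ (κ * f θ - T) ^ 2 / (2 * T * κ) := by positivity
        linarith
    have h7 : ∫ θ in (-δ)..δ, (f θ ^ 2 * (κ / (2 * T)) + T / (2 * κ)) =
        (∫ θ in (-δ)..δ, f θ ^ 2) * (κ / (2 * T)) + T * δ / κ := by
      rw [intervalIntegral.integral_add, intervalIntegral.integral_mul_const,
        intervalIntegral.integral_const]
      · simp only [smul_eq_mul]
        field_simp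
        ring
      · apply Continuous.intervalIntegrable
        fun_prop
      · exact intervalIntegrable_const
    have h8 : ∫ θ in (-δ)..δ, f θ ^ 2 ≤ 2 * Real.pi * T ^ 2 := by
      have h9 : ∫ θ in (-δ)..δ, f θ ^ 2 ≤ ∫ θ in (-Real.pi)..Real.pi, f θ ^ 2 := by
        apply intervalIntegral.integral_mono_interval (by linarith) (by linarith) hδ1
        · exact Filter.Eventually.of_forall fun θ => sq_nonneg _
        · apply Continuous.intervalIntegrable
          fun_prop
      have h10 := parseval (fun n => ρ ^ n) M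
      calc ∫ θ in (-δ)..δ, f θ ^ 2 ≤ ∫ θ in (-Real.pi)..Real.pi, f θ ^ 2 := h9
        _ = 2 * Real.pi * ∑ n ∈ range M, (ρ ^ n) ^ 2 := h10
        _ ≤ 2 * Real.pi * T ^ 2 := by gcongr
    rw [h7] at h4
    have h11 : (∫ θ in (-δ)..δ, f θ ^ 2) * (κ / (2 * T)) ≤
        (2 * Real.pi * T ^ 2) * (κ / (2 * T)) := by gcongr
    have h12 : (2 * Real.pi * T ^ 2) * (κ / (2 * T)) = Real.pi * κ * T := by
      field_simp
    linarith
  rw [hsplit]
  linarith

open Classical in
/-- number of ordered representations with both summands less than `N` -/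
noncomputable def rN (A : Set ℕ) (N n : ℕ) : ℕ :=
  ((antidiagonal n).filter fun p => (p.1 ∈ A ∧ p.1 < N) ∧ (p.2 ∈ A ∧ p.2 < N)).card

open Classical in
/-- number of ordered representations -/
noncomputable def rr (A : Set ℕ) (n : ℕ) : ℕ :=
  ((antidiagonal n).filter fun p => p.1 ∈ A ∧ p.2 ∈ A).card

theorem rN_le (A : Set ℕ) (N n : ℕ) : rN A N n ≤ rr A n := by
  classical
  apply Finset.card_le_card
  intro p hp
  simp only [mem_filter] at hp ⊢
  exact ⟨hp.1, hp.2.1.1, hp.2.2.1⟩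

theorem rN_eq (A : Set ℕ) (N n : ℕ) (h : n < N) : rN A N n = rr A n := by
  classical
  unfold rN rr
  congr 1
  ext p
  simp only [mem_filter, HasAntidiagonal.mem_antidiagonal]
  constructor
  · rintro ⟨h1, h2, h3⟩; exact ⟨h1, h2.1, h3.1⟩
  · rintro ⟨h1, h2, h3⟩; exact ⟨h1, ⟨h2, by omega⟩, ⟨h3, by omega⟩⟩

theorem rr_le (A : Set ℕ) (n : ℕ) : rr A n ≤ n + 1 := by
  classical
  unfold rr
  calc _ ≤ (antidiagonal n).card := Finset.card_filter_le _ _
    _ = n + 1 := by simp

open Classical in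
/-- damped indicator function -/
noncomputable def uu (A : Set ℕ) (N : ℕ) (ρ : ℝ) (a : ℕ) : ℝ :=
  if a ∈ A ∧ a < N then ρ ^ a else 0

theorem conv_uu (A : Set ℕ) (N : ℕ) (ρ : ℝ) (n : ℕ) :
    ∑ p ∈ antidiagonal n, uu A N ρ p.1 * uu A N ρ p.2 = ρ ^ n * rN A N n := by
  classical
  unfold rN
  rw [Finset.card_filter]
  push_cast
  rw [Finset.mul_sum]
  refine Finset.sum_congr rfl fun p hp => ?_
  rw [HasAntidiagonal.mem_antidiagonal] at hp
  unfold uu
  by_cases h1 : p.1 ∈ A ∧ p.1 < N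
  · by_cases h2 : p.2 ∈ A ∧ p.2 < N
    · rw [if_pos h1, if_pos h2, if_pos ⟨h1, h2⟩, ← pow_add, hp, mul_one]
    · have h3 : ¬ ((p.1 ∈ A ∧ p.1 < N) ∧ (p.2 ∈ A ∧ p.2 < N)) := fun h => h2 h.2
      rw [if_pos h1, if_neg h2, if_neg h3, mul_zero, mul_zero]
  · have h3 : ¬ ((p.1 ∈ A ∧ p.1 < N) ∧ (p.2 ∈ A ∧ p.2 < N)) := fun h => h1 h.1
    rw [if_neg h1, if_neg h3, zero_mul, mul_zero]

theorem uu_zero (A : Set ℕ) (N : ℕ) (ρ : ℝ) (n : ℕ) (h : N ≤ n) : uu A N ρ n = 0 := by
  unfold uu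
  rw [if_neg]
  rintro ⟨-, h2⟩
  omega

theorem uu_sq (A : Set ℕ) (N : ℕ) (ρ : ℝ) (n : ℕ) : uu A N ρ n ^ 2 = uu A N (ρ ^ 2) n := by
  unfold uu
  split_ifs
  · rw [← pow_mul, ← pow_mul, mul_comm]
  · simp

theorem sum_sq (A : Set ℕ) (N : ℕ) (x : ℝ) :
    (∑ n ∈ range N, uu A N x n) ^ 2 = ∑ n ∈ range (2 * N), x ^ n * rN A N n := by
  have h := tp_sq (uu A N x) N (uu_zero A N x) 0
  have h0 : ∀ (c : ℕ → ℝ) (M : ℕ), tp c M 0 = ((∑ n ∈ range M, c n : ℝ) : ℂ) := by
    intro c M
    unfold tp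
    simp
  rw [h0, h0] at h
  have h1 : (∑ n ∈ range N, uu A N x n) ^ 2 =
      ∑ n ∈ range (2 * N), ∑ p ∈ antidiagonal n, uu A N x p.1 * uu A N x p.2 := by
    exact_mod_cast h
  rw [h1]
  exact Finset.sum_congr rfl fun n _ => conv_uu A N x n

theorem geom_le (x T : ℝ) (hT : 0 < T) (hx : x = 1 - 1 / T ^ 2) (hx0 : 0 ≤ x) (M : ℕ) :
    ∑ n ∈ range M, x ^ n ≤ T ^ 2 := by
  have h1 : (∑ n ∈ range M, x ^ n) * (1 - x) = 1 - x ^ M := geom_sum_mul_neg x M
  have h2 : 1 - x = 1 / T ^ 2 := by rw [hx]; ring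
  rw [h2] at h1
  have h3 : (∑ n ∈ range M, x ^ n) = (1 - x ^ M) * T ^ 2 := by
    field_simp at h1
    linarith
  rw [h3]
  have h4 : 0 ≤ x ^ M := pow_nonneg hx0 M
  have h5 : 0 < T ^ 2 := by positivity
  nlinarith

theorem geom_ge (x T : ℝ) (hT : 0 < T) (hx : x = 1 - 1 / T ^ 2) (M : ℕ)
    (hM : x ^ M * T ^ 2 ≤ 1) :
    T ^ 2 - 1 ≤ ∑ n ∈ range M, x ^ n := by
  have h1 : (∑ n ∈ range M, x ^ n) * (1 - x) = 1 - x ^ M := geom_sum_mul_neg x M
  have h2 : 1 - x = 1 / T ^ 2 := by rw [hx]; ring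
  rw [h2] at h1
  have h3 : (∑ n ∈ range M, x ^ n) = (1 - x ^ M) * T ^ 2 := by
    field_simp at h1
    linarith
  rw [h3]
  nlinarith

/-- the inequality for given parameters -/
theorem ineq (A : Set ℕ) (c D : ℝ) (n0 : ℕ) (hc : 0 < c) (hD : 0 ≤ D)
    (h : ∀ n, n0 ≤ n → c ≤ rr A n ∧ (rr A n : ℝ) ≤ c + D)
    (T δ κ μ : ℝ) (hT : 2 ≤ T) (hδ : 0 < δ) (hδ1 : δ ≤ Real.pi) (hκ : 0 < κ) (hμ : 0 < μ) :
    ∃ S : ℝ, 0 ≤ S ∧ c * (T ^ 2 - 1 - n0) ≤ S ^ 2 ∧
      2 * Real.pi * S ≤ (c + D / 2) *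
        (2 * Real.pi * (2 / Real.sqrt (1 - Real.cos δ)) + Real.pi * κ * T + T * δ / κ) +
        Real.pi * (((D / 2) ^ 2 * T ^ 2 + n0 * (c + D / 2 + n0 + 1) ^ 2 + 1) / (μ * T) + μ * T) := by
  classical
  set K := c + D / 2 with hK
  set x := 1 - 1 / T ^ 2 with hx
  have hT0 : 0 < T := by linarith
  have hT2 : 1 / T ^ 2 ≤ 1 / 4 := by
    apply one_div_le_one_div_of_le (by norm_num)
    nlinarith
  have hT3 : 0 < 1 / T ^ 2 := by positivity
  have hx0 : 3 / 4 ≤ x := by rw [hx]; linarith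
  have hx1 : x < 1 := by rw [hx]; linarith
  set ρ := Real.sqrt x with hρ
  have hρ2 : ρ ^ 2 = x := Real.sq_sqrt (by linarith)
  have hρ0 : 1 / 2 ≤ ρ := by
    apply Real.le_sqrt_of_sq_le
    norm_num
    linarith
  have hρ1 : ρ < 1 := by
    rw [hρ, Real.sqrt_lt' one_pos]
    simpa using hx1
  -- choice of `N`
  obtain ⟨N, hN0, hN1, hN2⟩ : ∃ N : ℕ, n0 ≤ N ∧ x ^ N * T ^ 2 ≤ 1 ∧
      K ^ 2 * (x ^ N * T ^ 2) ≤ 1 := by
    have ht : Tendsto (fun N : ℕ => (K ^ 2 + 1) * T ^ 2 * x ^ N) atTop (𝓝 ((K ^ 2 + 1) * T ^ 2 * 0)) :=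
      (tendsto_pow_atTop_nhds_zero_of_lt_one (by linarith) hx1).const_mul _
    rw [mul_zero] at ht
    have he : ∀ᶠ N : ℕ in atTop, (K ^ 2 + 1) * T ^ 2 * x ^ N < 1 :=
      ht.eventually_lt_const one_pos
    obtain ⟨N, hN, hN'⟩ := (he.and (eventually_ge_atTop n0)).exists
    refine ⟨N, hN', ?_, ?_⟩
    · have : 0 ≤ K ^ 2 * (T ^ 2 * x ^ N) := by positivity
      nlinarith
    · have : 0 ≤ T ^ 2 * x ^ N := by positivity
      nlinarith
  set S := ∑ n ∈ range N, uu A N x n with hS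
  refine ⟨S, ?_, ?_, ?_⟩
  · apply Finset.sum_nonneg
    intro n _
    unfold uu
    split_ifs
    · positivity
    · exact le_rfl
  · rw [hS, sum_sq]
    have h1 : ∑ n ∈ Ico n0 N, x ^ n * c ≤ ∑ n ∈ range (2 * N), x ^ n * rN A N n := by
      calc ∑ n ∈ Ico n0 N, x ^ n * c ≤ ∑ n ∈ Ico n0 N, x ^ n * rN A N n := by
            apply Finset.sum_le_sum
            intro n hn
            rw [mem_Ico] at hn
            rw [rN_eq A N n hn.2]
            have := (h n hn.1).1
            gcongr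
        _ ≤ ∑ n ∈ range (2 * N), x ^ n * rN A N n := by
            apply Finset.sum_le_sum_of_subset_of_nonneg
            · intro n hn
              rw [mem_Ico] at hn
              rw [mem_range]
              omega
            · intro n _ _
              positivity
    refine le_trans ?_ h1
    rw [← Finset.sum_mul, mul_comm]
    have h2 : T ^ 2 - 1 ≤ ∑ n ∈ range N, x ^ n := geom_ge x T hT0 hx N hN1
    have h3 : ∑ n ∈ range N, x ^ n = ∑ n ∈ range n0, x ^ n + ∑ n ∈ Ico n0 N, x ^ n := by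
      rw [Finset.sum_range_add_sum_Ico _ hN0]
    have h4 : ∑ n ∈ range n0, x ^ n ≤ n0 := by
      calc ∑ n ∈ range n0, x ^ n ≤ ∑ n ∈ range n0, (1 : ℝ) := by
            apply Finset.sum_le_sum
            intro n _
            exact pow_le_one₀ (by linarith) hx1.le
        _ = n0 := by simp
    have h5 : T ^ 2 - 1 - n0 ≤ ∑ n ∈ Ico n0 N, x ^ n := by linarith
    nlinarith
  · have hk := key (uu A N ρ) (fun n => K * ρ ^ n) N (uu_zero A N ρ)
    have h1 : ∑ n ∈ range N, uu A N ρ n ^ 2 = S := by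
      rw [hS]
      refine Finset.sum_congr rfl fun n _ => ?_
      rw [uu_sq, hρ2]
    rw [h1] at hk
    have hρn : ∀ n : ℕ, (ρ ^ n) ^ 2 = x ^ n := by
      intro n
      rw [← pow_mul, mul_comm, pow_mul, hρ2]
    -- the geometric part
    have hgeo : ∫ θ in (-Real.pi)..Real.pi, ‖tp (fun n => K * ρ ^ n) (2 * N) θ‖ ≤
        K * (2 * Real.pi * (2 / Real.sqrt (1 - Real.cos δ)) + Real.pi * κ * T + T * δ / κ) := by
      have h2 : ∀ θ, ‖tp (fun n => K * ρ ^ n) (2 * N) θ‖ =
          K * ‖tp (fun n => ρ ^ n) (2 * N) θ‖ := by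
        intro θ
        have : tp (fun n => K * ρ ^ n) (2 * N) θ = (K : ℂ) * tp (fun n => ρ ^ n) (2 * N) θ := by
          unfold tp
          rw [Finset.mul_sum]
          refine Finset.sum_congr rfl fun n _ => ?_
          push_cast
          ring
        rw [this, norm_mul, Complex.norm_real, Real.norm_of_nonneg (by positivity)]
      simp_rw [h2]
      rw [intervalIntegral.integral_const_mul]
      have h3 : ∑ n ∈ range (2 * N), (ρ ^ n) ^ 2 ≤ T ^ 2 := by
        simp_rw [hρn]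
        exact geom_le x T hT0 hx (by linarith) _
      have h4 := geom_l1 ρ hρ0 hρ1 (2 * N) δ κ T hδ hδ1 hκ hT0 h3
      have hK0 : 0 ≤ K := by positivity
      gcongr
    -- the error part
    have herr : ∫ θ in (-Real.pi)..Real.pi,
        ‖tp (fun n => (∑ p ∈ antidiagonal n, uu A N ρ p.1 * uu A N ρ p.2) - K * ρ ^ n) (2 * N) θ‖ ≤
        Real.pi * (((D / 2) ^ 2 * T ^ 2 + n0 * (K + n0 + 1) ^ 2 + 1) / (μ * T) + μ * T) := by
      refine (l1_le _ _ (μ * T) (by positivity)).trans ?_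
      have h5 : ∑ n ∈ range (2 * N),
          ((∑ p ∈ antidiagonal n, uu A N ρ p.1 * uu A N ρ p.2) - K * ρ ^ n) ^ 2 ≤
          (D / 2) ^ 2 * T ^ 2 + n0 * (K + n0 + 1) ^ 2 + 1 := by
        have h6 : ∀ n ∈ range (2 * N),
            ((∑ p ∈ antidiagonal n, uu A N ρ p.1 * uu A N ρ p.2) - K * ρ ^ n) ^ 2 ≤
            (D / 2) ^ 2 * x ^ n + (if n < n0 then (K + n0 + 1) ^ 2 else 0) +
              K ^ 2 * (if N ≤ n then x ^ n else 0) := by
          intro n _
          rw [conv_uu]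
          have h7 : (ρ ^ n * (rN A N n : ℝ) - K * ρ ^ n) ^ 2 = x ^ n * ((rN A N n : ℝ) - K) ^ 2 := by
            rw [← hρn]; ring
          rw [h7]
          have hxn : 0 ≤ x ^ n := by positivity
          have hxn1 : x ^ n ≤ 1 := pow_le_one₀ (by linarith) hx1.le
          have hK0 : 0 < K := by positivity
          by_cases hn : n < n0
          · rw [if_pos hn]
            have h8 : (rN A N n : ℝ) ≤ n + 1 := by
              exact_mod_cast (rN_le A N n).trans (rr_le A n)
            have h9 : (n : ℝ) < n0 := by exact_mod_cast hn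
            have h10 : (0 : ℝ) ≤ rN A N n := by positivity
            have h11 : ((rN A N n : ℝ) - K) ^ 2 ≤ (K + n0 + 1) ^ 2 := by
              apply sq_le_sq'
              · have : (0 : ℝ) ≤ n0 := by positivity
                linarith
              · linarith
            have h12 : 0 ≤ K ^ 2 * (if N ≤ n then x ^ n else 0) := by
              split_ifs <;> positivity
            have h13 : 0 ≤ (D / 2) ^ 2 * x ^ n := by positivity
            have h14 : x ^ n * ((rN A N n : ℝ) - K) ^ 2 ≤ 1 * ((rN A N n : ℝ) - K) ^ 2 := by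
              gcongr
            linarith
          · rw [if_neg hn]
            push Not at hn
            have h8 := h n hn
            by_cases hn2 : N ≤ n
            · rw [if_pos hn2]
              have h9 : (rN A N n : ℝ) ≤ rr A n := by exact_mod_cast rN_le A N n
              have h10 : (0 : ℝ) ≤ rN A N n := by positivity
              have h11 : ((rN A N n : ℝ) - K) ^ 2 ≤ K ^ 2 := by
                apply sq_le_sq'
                · linarith
                · linarith [h8.2]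
              have h13 : 0 ≤ (D / 2) ^ 2 * x ^ n := by positivity
              have h14 : x ^ n * ((rN A N n : ℝ) - K) ^ 2 ≤ x ^ n * K ^ 2 := by
                gcongr
              linarith
            · rw [if_neg hn2]
              push Not at hn2
              rw [rN_eq A N n hn2]
              have h11 : ((rr A n : ℝ) - K) ^ 2 ≤ (D / 2) ^ 2 := by
                apply sq_le_sq'
                · linarith [h8.1]
                · linarith [h8.2]
              have h14 : x ^ n * ((rr A n : ℝ) - K) ^ 2 ≤ x ^ n * (D / 2) ^ 2 := by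
                gcongr
              linarith
        refine (Finset.sum_le_sum h6).trans ?_
        rw [Finset.sum_add_distrib, Finset.sum_add_distrib, ← Finset.mul_sum, ← Finset.mul_sum]
        have h15 : ∑ n ∈ range (2 * N), x ^ n ≤ T ^ 2 := geom_le x T hT0 hx (by linarith) _
        have h16 : ∑ n ∈ range (2 * N), (if n < n0 then (K + n0 + 1) ^ 2 else 0) ≤
            n0 * (K + n0 + 1) ^ 2 := by
          rw [← Finset.sum_filter, Finset.sum_const, nsmul_eq_mul]
          have : ((range (2 * N)).filter fun n => n < n0).card ≤ n0 := by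
            calc _ ≤ (range n0).card := by
                  apply Finset.card_le_card
                  intro n hn
                  rw [mem_filter] at hn
                  exact mem_range.2 hn.2
              _ = n0 := by simp
          have h17 : (((range (2 * N)).filter fun n => n < n0).card : ℝ) ≤ n0 := by
            exact_mod_cast this
          gcongr
        have h18 : ∑ n ∈ range (2 * N), (if N ≤ n then x ^ n else 0) ≤ x ^ N * T ^ 2 := by
          rw [← Finset.sum_filter]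
          have h19 : ((range (2 * N)).filter fun n => N ≤ n) = Ico N (2 * N) := by
            ext n
            simp only [mem_filter, mem_range, mem_Ico]
            tauto
          rw [h19, Finset.sum_Ico_eq_sum_range]
          have h20 : ∑ k ∈ range (2 * N - N), x ^ (N + k) =
              x ^ N * ∑ k ∈ range (2 * N - N), x ^ k := by
            rw [Finset.mul_sum]
            exact Finset.sum_congr rfl fun k _ => pow_add _ _ _
          rw [h20]
          have := geom_le x T hT0 hx (by linarith) (2 * N - N)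
          have hxN : 0 ≤ x ^ N := by positivity
          gcongr
        have h21 : K ^ 2 * ∑ n ∈ range (2 * N), (if N ≤ n then x ^ n else 0) ≤ 1 := by
          refine le_trans ?_ hN2
          gcongr
        have h22 : (D / 2) ^ 2 * ∑ n ∈ range (2 * N), x ^ n ≤ (D / 2) ^ 2 * T ^ 2 := by
          gcongr
        linarith
      have hpi := Real.pi_pos
      gcongr
    linarith

theorem no_narrow (A : Set ℕ) (c D : ℝ) (n0 : ℕ) (hc : 0 < c) (hD : 0 ≤ D)
    (hlt : D / 2 < Real.sqrt c)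
    (h : ∀ n, n0 ≤ n → c ≤ rr A n ∧ (rr A n : ℝ) ≤ c + D) : False := by
  set s := Real.sqrt c with hs
  have hs2 : s ^ 2 = c := Real.sq_sqrt hc.le
  have hs0 : 0 < s := Real.sqrt_pos.2 hc
  set m := D / 2 with hm
  have hm0 : 0 ≤ m := by positivity
  set μ := (m + s) / 2 with hμ
  have hμ0 : 0 < μ := by positivity
  have hμm : m < μ := by rw [hμ]; linarith
  have hμs : μ < s := by rw [hμ]; linarith
  set K := c + m with hK
  have hK0 : 0 < K := by positivity
  set η := s - μ with hη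
  have hη0 : 0 < η := by rw [hη]; linarith
  set κ := η / (2 * K) with hκ
  have hκ0 : 0 < κ := by positivity
  set δ := min (κ ^ 2) Real.pi with hδ
  have hpi := Real.pi_pos
  have hδ0 : 0 < δ := lt_min (by positivity) hpi
  have hδ1 : δ ≤ Real.pi := min_le_right _ _
  have hδ2 : δ / κ ≤ κ := by
    rw [div_le_iff₀ hκ0]
    calc δ ≤ κ ^ 2 := min_le_left _ _
      _ = κ * κ := by ring
  set C := 2 / Real.sqrt (1 - Real.cos δ) with hC
  have hC0 : 0 ≤ C := by positivity
  set E := (n0 : ℝ) * (K + n0 + 1) ^ 2 + 1 with hE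
  have hE0 : 0 < E := by positivity
  set C3 := K * C + E / (2 * μ) with hC3
  have hC30 : 0 ≤ C3 := by positivity
  set ν := μ + η / 2 with hν
  have hν0 : 0 < ν := by positivity
  have hνs : ν < s := by rw [hν, hη]; linarith
  have hg : 0 < s ^ 2 - ν ^ 2 := by nlinarith
  set c1 := c * (1 + n0) with hc1
  have hc10 : 0 < c1 := by positivity
  set T := max 2 ((2 * ν * C3 + C3 ^ 2 + c1 + 1) / (s ^ 2 - ν ^ 2)) with hT
  have hT2 : 2 ≤ T := le_max_left _ _
  have hT3 : 2 * ν * C3 + C3 ^ 2 + c1 + 1 ≤ (s ^ 2 - ν ^ 2) * T := by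
    have : (2 * ν * C3 + C3 ^ 2 + c1 + 1) / (s ^ 2 - ν ^ 2) ≤ T := le_max_right _ _
    rw [div_le_iff₀ hg] at this
    linarith
  obtain ⟨S, hS0, hS1, hS2⟩ := ineq A c D n0 hc hD h T δ κ μ hT2 hδ0 hδ1 hκ0 hμ0
  have hT0 : 0 < T := by linarith
  clear_value T
  have e1 : Real.pi * (((D / 2) ^ 2 * T ^ 2 + n0 * (c + D / 2 + n0 + 1) ^ 2 + 1) / (μ * T) + μ * T) ≤
      2 * Real.pi * (μ * T) + Real.pi * (E / μ) := by
    have e2 : ((D / 2) ^ 2 * T ^ 2 + n0 * (c + D / 2 + n0 + 1) ^ 2 + 1) / (μ * T) =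
        m ^ 2 / μ * T + E / μ / T := by
      rw [hE, hK, hm]
      field_simp
      ring
    rw [e2]
    have e3 : m ^ 2 / μ ≤ μ := by
      rw [div_le_iff₀ hμ0]
      calc m ^ 2 = m * m := sq m
        _ ≤ μ * μ := mul_le_mul hμm.le hμm.le hm0 hμ0.le
    have e4 : E / μ / T ≤ E / μ := div_le_self (by positivity) (by linarith)
    have e5 : m ^ 2 / μ * T ≤ μ * T := by gcongr
    have : Real.pi * (m ^ 2 / μ * T + E / μ / T + μ * T) ≤
        Real.pi * (μ * T + E / μ + μ * T) := by gcongr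
    linarith
  have e6 : T * δ / κ ≤ T * κ := by
    rw [mul_div_assoc]
    gcongr
  have e7 : (c + D / 2) * (2 * Real.pi * (2 / Real.sqrt (1 - Real.cos δ)) + Real.pi * κ * T +
      T * δ / κ) ≤ K * (2 * Real.pi * C + Real.pi * κ * T + Real.pi * (κ * T)) := by
    have e8 : T * κ ≤ Real.pi * (κ * T) := by
      have h1 : 1 ≤ Real.pi := by linarith [Real.pi_gt_three]
      rw [mul_comm T κ]
      exact le_mul_of_one_le_left (mul_pos hκ0 hT0).le h1
    have e9 : c + D / 2 = K := by rw [hK, hm]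
    rw [e9]
    apply mul_le_mul_of_nonneg_left _ hK0.le
    have e91 : T * δ / κ ≤ Real.pi * (κ * T) := e6.trans e8
    linarith
  have e10 : K * κ = η / 2 := by
    rw [hκ]; field_simp
  have e11 : 2 * Real.pi * S ≤ 2 * Real.pi * (ν * T + C3) := by
    calc 2 * Real.pi * S ≤ K * (2 * Real.pi * C + Real.pi * κ * T + Real.pi * (κ * T)) +
          (2 * Real.pi * (μ * T) + Real.pi * (E / μ)) := by linarith
      _ = 2 * Real.pi * (K * C + (K * κ) * T + μ * T + E / (2 * μ)) := by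
        field_simp
        ring
      _ = 2 * Real.pi * (ν * T + C3) := by
        rw [e10, hν, hC3]; ring
  have e12 : S ≤ ν * T + C3 := le_of_mul_le_mul_left e11 (by positivity)
  have e13 : S ^ 2 ≤ (ν * T + C3) ^ 2 := pow_le_pow_left₀ hS0 e12 2
  have e14 : c * (T ^ 2 - 1 - n0) = s ^ 2 * T ^ 2 - c1 := by
    rw [hs2, hc1]; ring
  rw [e14] at hS1
  have e15 : (s ^ 2 - ν ^ 2) * T ^ 2 ≤ 2 * ν * C3 * T + C3 ^ 2 + c1 := by
    have e151 : (ν * T + C3) ^ 2 = ν ^ 2 * T ^ 2 + 2 * ν * C3 * T + C3 ^ 2 := by ring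
    rw [e151] at e13
    have e152 : (s ^ 2 - ν ^ 2) * T ^ 2 = s ^ 2 * T ^ 2 - ν ^ 2 * T ^ 2 := by ring
    rw [e152]
    linarith
  have e16 : (2 * ν * C3 + C3 ^ 2 + c1 + 1) * T ≤ (s ^ 2 - ν ^ 2) * T ^ 2 := by
    calc (2 * ν * C3 + C3 ^ 2 + c1 + 1) * T ≤ ((s ^ 2 - ν ^ 2) * T) * T := by gcongr
      _ = (s ^ 2 - ν ^ 2) * T ^ 2 := by ring
  have e17 : 0 ≤ (C3 ^ 2 + c1) * (T - 1) := by
    apply mul_nonneg (by positivity) (by linarith)
  have e18 : (2 * ν * C3 + C3 ^ 2 + c1 + 1) * T =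
      2 * ν * C3 * T + C3 ^ 2 + c1 + (C3 ^ 2 + c1) * (T - 1) + T := by ring
  rw [e18] at e16
  linarith

theorem main (A : Set ℕ) (c : ℕ) (h : ∀ᶠ n in atTop, c ≤ rr A n) :
    ∃ᶠ n in atTop, (c : ℝ) + 2 * Real.sqrt c ≤ rr A n := by
  rcases Nat.eq_zero_or_pos c with hc | hc
  · subst hc
    refine Frequently.of_forall fun n => ?_
    simp
  · rw [Filter.Frequently]
    intro h2
    have h3 : ∀ᶠ n in atTop, (c : ℝ) ≤ rr A n ∧
        (rr A n : ℝ) ≤ c + ((⌈2 * Real.sqrt c⌉₊ - 1 : ℕ) : ℝ) := by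
      filter_upwards [h, h2] with n h4 h5
      push Not at h5
      refine ⟨by exact_mod_cast h4, ?_⟩
      have h6 : ((rr A n - c : ℕ) : ℝ) < 2 * Real.sqrt c := by
        rw [Nat.cast_sub h4]; linarith
      have h7 : rr A n - c < ⌈2 * Real.sqrt c⌉₊ := Nat.lt_ceil.2 h6
      have h8 : rr A n ≤ c + (⌈2 * Real.sqrt c⌉₊ - 1) := by omega
      exact_mod_cast h8
    obtain ⟨n0, hn0⟩ := eventually_atTop.1 h3
    have hcr : (0 : ℝ) < c := by exact_mod_cast hc
    have hs0 : 0 < Real.sqrt c := Real.sqrt_pos.2 hcr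
    refine no_narrow A c ((⌈2 * Real.sqrt c⌉₊ - 1 : ℕ) : ℝ) n0 hcr (by positivity) ?_
      (fun n hn => hn0 n hn)
    have h9 : (⌈2 * Real.sqrt c⌉₊ : ℝ) < 2 * Real.sqrt c + 1 := Nat.ceil_lt_add_one (by positivity)
    have h10 : 1 ≤ ⌈2 * Real.sqrt c⌉₊ := Nat.one_le_ceil_iff.2 (by positivity)
    rw [Nat.cast_sub h10]
    push_cast
    linarith

end Pool.Agent.helper616_rb
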